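import Pool.Agent.Q301.TM.FinM

/-!
# A Tychonoff space of countable pseudocharacter for which the zero-set topology is not discrete

If there is a model of ZF, then there is a model of ZF with a Tychonoff space `x` of countable
pseudocharacter such that some subset `u` of `x` is not open in the topology on `x` that has the
zero-sets as a base.
-/

namespace Pool.Agent.Results.MP_053343_lc.ZeroSetTopologyNotDiscrete

open FirstOrder FirstOrder.Language
open Pool.Agent.Helper672.Plain (LSet Mem El)
open Pool.Agent.H635Amen (ZF IsReals)
open Pool.Agent.H310Top (IsTopology)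
open Pool.Agent.Q301.TM

universe u

theorem result (h : ∃ (M : Type u) (_ : LSet.Structure M), ZF M) :
    ∃ (N : Type u) (_ : LSet.Structure N), ZF N ∧
      ∃ (r : N) (_ : Field (El r)) (_ : LinearOrder (El r)) (_ : IsStrictOrderedRing (El r)),
        IsReals r ∧ ∃ t x : N, IsTychonoff t x r ∧ IsCountablePseudocharacter t x ∧
          ∃ u, (∀ z, Mem z u → Mem z x) ∧ ¬ IsZOpen t x r u := by
  exact Pool.Agent.Q301.TM.p053343 h

end Pool.Agent.Results.MP_053343_lc.ZeroSetTopologyNotDiscrete
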